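import Pool.Agent.H773.CS.Stm

/-!
Project CS (MP_8ad0a3_lc): `t_mk : S_mk` (building an instance from constraints indexed by a finite
type) and `t_pt : S_pt` (pointwise bound for the three constraints on a tuple).
-/

open Finset
open Pool.Agent.H773.CS

namespace Pool.Agent.H94.CS

/-- The instance indexed by a finite type. -/
noncomputable def mkI {Sg : Type} [Fintype Sg] [DecidableEq Sg] {k : ℕ}
    {F : Set ((Fin k → Sg) → Bool)} (V J : Type) [Fintype V] [Fintype J] [Nonempty J]
    (e : J → (Fin k ↪ V)) (f : J → ((Fin k → Sg) → Bool)) (hf : ∀ j, f j ∈ F) : Inst F where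
  V := V
  fin := inferInstance
  len := Fintype.card J
  pos := Fintype.card_pos
  e := fun i => e ((Fintype.equivFin J).symm i)
  f := fun i => f ((Fintype.equivFin J).symm i)
  mem := fun _ => hf _

theorem lpObj_le_one {Sg : Type} [Fintype Sg] [DecidableEq Sg] {k : ℕ}
    {F : Set ((Fin k → Sg) → Bool)} (I : Inst F) {x : I.V → Sg → ℝ}
    {z : Fin I.len → (Fin k → Sg) → ℝ} (h : LPFeasible I x z) : lpObj I z ≤ 1 := by
  unfold lpObj
  have hpos : (0 : ℝ) < (I.len : ℝ) := by exact_mod_cast I.pos
  rw [div_le_iff₀ hpos, one_mul]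
  have h1 : ∀ i : Fin I.len, (∑ a : Fin k → Sg, if I.f i a = true then z i a else 0) ≤ 1 := by
    intro i
    rw [← h.z_sum i]
    apply Finset.sum_le_sum
    intro a _
    split_ifs
    · exact le_refl _
    · exact h.z_nonneg i a
  calc (∑ i : Fin I.len, ∑ a : Fin k → Sg, if I.f i a = true then z i a else 0)
      ≤ ∑ _i : Fin I.len, (1 : ℝ) := Finset.sum_le_sum (fun i _ => h1 i)
    _ = (I.len : ℝ) := by simp

theorem t_mk : S_mk := by
  intro Sg _ _ _ k F V J _ _ _ e f hf
  refine ⟨mkI V J e f hf, ?_, ?_⟩
  · intro s hs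
    unfold Pool.Agent.H773.CS.val
    have : Nonempty ((mkI (F := F) V J e f hf).V → Sg) := inferInstance
    apply ciSup_le
    intro τ
    have hpos : (0 : ℝ) < (Fintype.card J : ℝ) := by exact_mod_cast Fintype.card_pos
    have h1 : valAt (mkI (F := F) V J e f hf) τ
        = (∑ j : J, if f j (fun i => τ (e j i)) = true then (1:ℝ) else 0) / Fintype.card J := by
      rw [← Equiv.sum_comp (Fintype.equivFin J).symm
        (fun j => if f j (fun i => τ (e j i)) = true then (1:ℝ) else 0)]
      rfl
    rw [h1, div_le_iff₀ hpos]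
    exact hs τ
  · intro t x z hx hz hxs hzs hm ht
    have hpos : (0 : ℝ) < (Fintype.card J : ℝ) := by exact_mod_cast Fintype.card_pos
    have hfe : LPFeasible (mkI (F := F) V J e f hf) x
        (fun i a => z ((Fintype.equivFin J).symm i) a) :=
      ⟨hx, fun i a => hz _ a, hxs, fun i => hzs _, fun i j s => hm _ j s⟩
    have hobj : lpObj (mkI (F := F) V J e f hf) (fun i a => z ((Fintype.equivFin J).symm i) a)
        = (∑ j : J, ∑ a : Fin k → Sg, (if f j a = true then z j a else 0)) / Fintype.card J := by
      rw [← Equiv.sum_comp (Fintype.equivFin J).symm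
        (fun j => ∑ a : Fin k → Sg, (if f j a = true then z j a else 0))]
      rfl
    have hle : t ≤ lpObj (mkI (F := F) V J e f hf)
        (fun i a => z ((Fintype.equivFin J).symm i) a) := by
      rw [hobj, le_div_iff₀ hpos]
      exact ht
    refine le_trans hle ?_
    unfold lpVal
    apply le_csSup
    · refine ⟨1, ?_⟩
      rintro r ⟨x', z', hf', rfl⟩
      exact lpObj_le_one _ hf'
    · exact ⟨x, _, hfe, rfl⟩

theorem fF_iff (n q : ℕ) (j : Bool) (w : Fin (n+1) → Bool × Bool)
    (a : Fin ((n+1)*10) → Sym q) : fF n q j w a = true ↔ SatF n j w a := by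
  classical
  unfold fF
  exact decide_eq_true_iff

theorem fU_iff (n q : ℕ) (a : Fin ((n+1)*10) → Sym q) : fU n q a = true ↔ SatU n a := by
  classical
  unfold fU
  exact decide_eq_true_iff

theorem ite_le_one' (p : Prop) [Decidable p] : (if p then (1:ℝ) else 0) ≤ 1 := by
  split_ifs <;> norm_num

theorem ite_nonneg2 (p : Prop) [Decidable p] : (0:ℝ) ≤ (if p then (2:ℝ) else 0) := by
  split_ifs <;> norm_num

theorem t_pt : S_pt := by
  classical
  intro n q w a
  have e0 := ite_le_one' (fF n q false w a = true)
  have e1 := ite_le_one' (fF n q true w a = true)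
  have e2 := ite_le_one' (fU n q a = true)
  by_cases hB : ∀ i, BitOK (w i) (fun r => a (ps i r))
  · rw [if_pos hB]
    have e3 := ite_nonneg2 (∀ i : Fin (n+1), LabOK (fun r => a (ps i r)))
    linarith
  by_cases hL : ∀ i : Fin (n+1), LabOK (fun r => a (ps i r))
  · rw [if_pos hL]
    have e3 := ite_nonneg2 (∀ i, BitOK (w i) (fun r => a (ps i r)))
    linarith
  rw [if_neg hB, if_neg hL]
  have key : ∀ j, fF n q j w a = true → ∀ i r, a (ps i r) = .bot j := by
    intro j hj
    rw [fF_iff] at hj
    rcases hj with h | h | h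
    · exact absurd h hB
    · exact absurd h hL
    · exact h
  by_cases h0 : fF n q false w a = true
  · have k0 := key false h0 0 0
    have h1 : ¬ (fF n q true w a = true) := by
      intro h1
      have k1 := key true h1 0 0
      rw [k0] at k1
      cases k1
    have h2 : ¬ (fU n q a = true) := by
      intro h2
      rw [fU_iff] at h2
      obtain ⟨b, hb⟩ := h2
      rw [k0] at hb
      cases hb
    rw [if_neg h1, if_neg h2]
    linarith
  · rw [if_neg h0]
    by_cases h1 : fF n q true w a = true
    · have k1 := key true h1 0 0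
      have h2 : ¬ (fU n q a = true) := by
        intro h2
        rw [fU_iff] at h2
        obtain ⟨b, hb⟩ := h2
        rw [k1] at hb
        cases hb
      rw [if_neg h2]
      linarith
    · rw [if_neg h1]
      linarith

end Pool.Agent.H94.CS
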